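import Mathlib
import Pool.Agent.N675.OddAll
import Pool.Agent.N675.OddFinal

/-! Final forms. -/

namespace Pool.Agent.N675

open Finset

section

variable {ι σ : Type} [Fintype ι] [DecidableEq ι] [Fintype σ] [DecidableEq σ]

omit [DecidableEq ι] in
/-- replacing `λ(0) = 0` by `λ(0) = 1` -/
lemma zero_diff (ψ : ι → σ → ℤ) (hψ : ∀ i, ψ i ≠ 0) (ε : ℝ) (hε : 0 < ε) :
    ∃ K : ℕ, ∀ B : σ → ℕ, (∀ s, K ≤ B s) → ∀ θ : σ → ℝ,
      ‖∑ y ∈ Box B, eR (∑ s, θ s * y s) * ∏ i, ((lamA (LL ψ i y) : ℝ) : ℂ)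
        - ∑ y ∈ Box B, eR (∑ s, θ s * y s) * ∏ i, lamZ (LL ψ i y)‖ ≤ ε * ∏ s, (B s : ℝ) := by
  classical
  obtain ⟨K2, hK2⟩ := exists_nat_ge (2 * Fintype.card ι / ε : ℝ)
  rw [div_le_iff₀ hε] at hK2
  refine ⟨K2 + 1, fun B hB θ => ?_⟩
  have hBpos : ∀ s, (0 : ℝ) < B s := by
    intro s
    have : 0 < B s := by have := hB s; omega
    exact_mod_cast this
  set PB : ℝ := ∏ s, (B s : ℝ) with hPB
  have hPBpos : 0 < PB := Finset.prod_pos fun s _ => hBpos s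
  set Z := (Box B).filter (fun y => ∃ i, LL ψ i y = 0) with hZ
  have hlA : ∀ m, ‖((lamA m : ℝ) : ℂ)‖ ≤ 1 := by
    intro m
    rw [Complex.norm_real, Real.norm_eq_abs]
    simp [lamA, abs_pow]
  have hdiff : ‖∑ y ∈ Box B, eR (∑ s, θ s * y s) * ∏ i, ((lamA (LL ψ i y) : ℝ) : ℂ)
        - ∑ y ∈ Box B, eR (∑ s, θ s * y s) * ∏ i, lamZ (LL ψ i y)‖ ≤ 2 * Z.card := by
    rw [← Finset.sum_sub_distrib]
    refine (norm_sum_le _ _).trans ?_
    calc _ ≤ ∑ y ∈ Box B, (if ∃ i, LL ψ i y = 0 then (2 : ℝ) else 0) := by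
          refine Finset.sum_le_sum fun y _ => ?_
          rw [← mul_sub, norm_mul, norm_eR, one_mul]
          split_ifs with hy
          · have a1 : ‖∏ i, ((lamA (LL ψ i y) : ℝ) : ℂ)‖ ≤ 1 := by
              rw [norm_prod]
              exact Finset.prod_le_one (fun _ _ => norm_nonneg _) fun i _ => hlA _
            have a2 : ‖∏ i, lamZ (LL ψ i y)‖ ≤ 1 := by
              rw [norm_prod]
              exact Finset.prod_le_one (fun _ _ => norm_nonneg _) fun i _ => lamZ_norm _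
            have := norm_sub_le (∏ i, ((lamA (LL ψ i y) : ℝ) : ℂ)) (∏ i, lamZ (LL ψ i y))
            linarith
          · push Not at hy
            have : ∏ i, lamZ (LL ψ i y) = ∏ i, ((lamA (LL ψ i y) : ℝ) : ℂ) := by
              refine Finset.prod_congr rfl fun i _ => ?_
              unfold lamZ lamA
              rw [if_neg (hy i)]
              push_cast
              rfl
            rw [this, sub_self, norm_zero]
      _ = 2 * Z.card := by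
          rw [← Finset.sum_filter, Finset.sum_const, nsmul_eq_mul, hZ, mul_comm]
  refine hdiff.trans ?_
  have hsub : Z ⊆ Finset.univ.biUnion (fun i => (Box B).filter (fun y => LL ψ i y = 0)) := by
    intro y hy
    rw [hZ, Finset.mem_filter] at hy
    obtain ⟨hy1, i, hi⟩ := hy
    rw [Finset.mem_biUnion]
    exact ⟨i, Finset.mem_univ i, Finset.mem_filter.mpr ⟨hy1, hi⟩⟩
  have h2 : (Z.card : ℝ) ≤ ∑ i : ι, (((Box B).filter (fun y => LL ψ i y = 0)).card : ℝ) := by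
    have := (Finset.card_le_card hsub).trans Finset.card_biUnion_le
    exact_mod_cast this
  have h3 : ∑ i : ι, (((Box B).filter (fun y => LL ψ i y = 0)).card : ℝ)
      ≤ ∑ i : ι, PB / (K2 + 1) := by
    refine Finset.sum_le_sum fun i _ => ?_
    obtain ⟨s, hs⟩ : ∃ s, ψ i s ≠ 0 := by
      by_contra hcon
      push Not at hcon
      exact hψ i (funext hcon)
    have h3 := zero_count ψ i s hs B
    have h4 : (((Box B).filter (fun y => LL ψ i y = 0)).card : ℝ) * B s ≤ PB := by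
      rw [hPB, ← Box_card]
      exact_mod_cast h3
    rw [le_div_iff₀ (by positivity)]
    have h5 : (K2 : ℝ) + 1 ≤ B s := by
      have := hB s
      exact_mod_cast this
    exact (mul_le_mul_of_nonneg_left h5 (Nat.cast_nonneg _)).trans h4
  rw [Finset.sum_const, Finset.card_univ, nsmul_eq_mul] at h3
  calc 2 * (Z.card : ℝ) ≤ 2 * (Fintype.card ι * (PB / (K2 + 1))) := by linarith
    _ = (2 * Fintype.card ι : ℝ) * PB / (K2 + 1) := by ring
    _ ≤ ((K2 + 1) * ε) * PB / (K2 + 1) := by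
        apply div_le_div_of_nonneg_right _ (by positivity)
        refine mul_le_mul_of_nonneg_right ?_ hPBpos.le
        nlinarith
    _ = ε * PB := by field_simp

lemma TL_eq (ψ : ι → σ → ℤ) (B : σ → ℕ) (hB : ∀ s, 0 < B s) (θ : σ → ℝ) :
    ‖∑ y ∈ Box B, eR (∑ s, θ s * y s) * ∏ i, lamZ (LL ψ i y)‖
      = ‖TL ψ B θ‖ * ∏ s, (B s : ℝ) := by
  unfold TL EE
  have hPBpos : 0 < ∏ s, (B s : ℝ) := Finset.prod_pos fun s _ => by exact_mod_cast hB s
  rw [norm_div, norm_prod]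
  simp only [Complex.norm_natCast]
  rw [div_mul_cancel₀ _ hPBpos.ne']

theorem odd_all_final (ψ : ι → σ → ℤ) (hψ : ∀ i, ψ i ≠ 0) (hodd : Odd (Fintype.card ι))
    (ε : ℝ) (hε : 0 < ε) :
    ∃ K : ℕ, ∀ B : σ → ℕ, (∀ s, K ≤ B s) → ∀ θ : σ → ℝ,
      ‖∑ y ∈ Box B, eR (∑ s, θ s * y s) * ∏ i, ((lamA (LL ψ i y) : ℝ) : ℂ)‖
        ≤ ε * ∏ s, (B s : ℝ) := by
  obtain ⟨K1, h1⟩ := odd_all ψ hψ hodd (ε / 2) (by positivity)
  obtain ⟨K2, h2⟩ := zero_diff ψ hψ (ε / 2) (by positivity)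
  refine ⟨K1 + K2 + 1, fun B hB θ => ?_⟩
  have e1 := h1 B (fun s => by have := hB s; omega) θ
  have e2 := h2 B (fun s => by have := hB s; omega) θ
  have e3 := TL_eq ψ B (fun s => by have := hB s; omega) θ
  have hPB : 0 ≤ ∏ s, (B s : ℝ) := Finset.prod_nonneg fun _ _ => Nat.cast_nonneg _
  have e4 := mul_le_mul_of_nonneg_right e1 hPB
  have e5 := norm_add_le (∑ y ∈ Box B, eR (∑ s, θ s * y s) * ∏ i, ((lamA (LL ψ i y) : ℝ) : ℂ)
        - ∑ y ∈ Box B, eR (∑ s, θ s * y s) * ∏ i, lamZ (LL ψ i y))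
    (∑ y ∈ Box B, eR (∑ s, θ s * y s) * ∏ i, lamZ (LL ψ i y))
  rw [sub_add_cancel] at e5
  linarith

theorem minor_final (ψ : ι → σ → ℤ) (hψ : ∀ i, ψ i ≠ 0) (ε : ℝ) (hε : 0 < ε) :
    ∃ Q K : ℕ, ∀ B : σ → ℕ, (∀ s, K ≤ B s) → ∀ θ : σ → ℝ,
      ε * ∏ s, (B s : ℝ)
        < ‖∑ y ∈ Box B, eR (∑ s, θ s * y s) * ∏ i, ((lamA (LL ψ i y) : ℝ) : ℂ)‖ →
      ∃ q : ℕ, 1 ≤ q ∧ q ≤ Q ∧ ∀ s, |(q : ℝ) * θ s - round ((q : ℝ) * θ s)| ≤ Q / B s := by
  obtain ⟨Q, K1, h1⟩ := minor_arcs ψ hψ (ε / 2) (by positivity)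
  obtain ⟨K2, h2⟩ := zero_diff ψ hψ (ε / 2) (by positivity)
  refine ⟨Q, K1 + K2 + 1, fun B hB θ hθ => ?_⟩
  refine h1 B (fun s => by have := hB s; omega) θ ?_
  by_contra hcon
  push Not at hcon
  have e2 := h2 B (fun s => by have := hB s; omega) θ
  have e3 := TL_eq ψ B (fun s => by have := hB s; omega) θ
  have hPB : 0 ≤ ∏ s, (B s : ℝ) := Finset.prod_nonneg fun _ _ => Nat.cast_nonneg _
  have e4 := mul_le_mul_of_nonneg_right hcon hPB
  have e5 := norm_add_le (∑ y ∈ Box B, eR (∑ s, θ s * y s) * ∏ i, ((lamA (LL ψ i y) : ℝ) : ℂ)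
        - ∑ y ∈ Box B, eR (∑ s, θ s * y s) * ∏ i, lamZ (LL ψ i y))
    (∑ y ∈ Box B, eR (∑ s, θ s * y s) * ∏ i, lamZ (LL ψ i y))
  rw [sub_add_cancel] at e5
  linarith

end

end Pool.Agent.N675
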